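import Pool.Agent.helper7.DF.Spec

set_option autoImplicit false

open Finset

namespace Pool.Agent.DFO

open Pool.Agent.LDH (ee)
open Pool.Agent.helper85.BVP (tau)

private lemma TII_schur (s : Finset ℕ) (β : ℕ → ℝ) (K : ℕ → ℕ → ℝ) (R : ℝ) (hK0 : ∀ i j, 0 ≤ K i j)
    (hsym : ∀ i j, K i j = K j i) (hR : ∀ i ∈ s, ∑ j ∈ s, K i j ≤ R) :
    ∑ i ∈ s, ∑ j ∈ s, |β i| * |β j| * K i j ≤ R * ∑ i ∈ s, β i ^ 2 := by
  have h1 : ∑ i ∈ s, ∑ j ∈ s, |β i| * |β j| * K i j ≤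
      ∑ i ∈ s, ∑ j ∈ s, (β i ^ 2 / 2 * K i j + β j ^ 2 / 2 * K i j) := by
    refine Finset.sum_le_sum fun i _ => Finset.sum_le_sum fun j _ => ?_
    have h2 : |β i| * |β j| ≤ β i ^ 2 / 2 + β j ^ 2 / 2 := by
      have h3 := sq_nonneg (|β i| - |β j|)
      have h4 := sq_abs (β i)
      have h5 := sq_abs (β j)
      nlinarith
    calc |β i| * |β j| * K i j ≤ (β i ^ 2 / 2 + β j ^ 2 / 2) * K i j := mul_le_mul_of_nonneg_right h2 (hK0 i j)
      _ = β i ^ 2 / 2 * K i j + β j ^ 2 / 2 * K i j := by ring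
  have h2 : ∑ i ∈ s, ∑ j ∈ s, (β i ^ 2 / 2 * K i j + β j ^ 2 / 2 * K i j) =
      ∑ i ∈ s, ∑ j ∈ s, β i ^ 2 / 2 * K i j + ∑ i ∈ s, ∑ j ∈ s, β j ^ 2 / 2 * K i j := by
    simp only [Finset.sum_add_distrib]
  have h3 : ∑ i ∈ s, ∑ j ∈ s, β j ^ 2 / 2 * K i j = ∑ i ∈ s, ∑ j ∈ s, β i ^ 2 / 2 * K i j := by
    rw [Finset.sum_comm]
    refine Finset.sum_congr rfl fun i _ => Finset.sum_congr rfl fun j _ => ?_
    rw [hsym j i]
  have h4 : ∑ i ∈ s, ∑ j ∈ s, β i ^ 2 / 2 * K i j ≤ R / 2 * ∑ i ∈ s, β i ^ 2 := by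
    rw [Finset.mul_sum]
    refine Finset.sum_le_sum fun i hi => ?_
    rw [← Finset.mul_sum]
    have h5 := mul_le_mul_of_nonneg_left (hR i hi) (show 0 ≤ β i ^ 2 / 2 by positivity)
    linarith
  rw [h2, h3] at h1
  linarith

private lemma TII_open (s t : Finset ℕ) (β : ℕ → ℝ) (w : ℕ → ℕ → ℂ) :
    ∑ m ∈ t, ‖∑ l ∈ s, (β l : ℂ) * w m l‖ ^ 2 ≤
      ∑ i ∈ s, ∑ j ∈ s, |β i| * |β j| * ‖∑ m ∈ t, w m i * (starRingEnd ℂ) (w m j)‖ := by
  have h1 : ((∑ m ∈ t, ‖∑ l ∈ s, (β l : ℂ) * w m l‖ ^ 2 : ℝ) : ℂ) =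
      ∑ i ∈ s, ∑ j ∈ s, (β i : ℂ) * (β j : ℂ) * ∑ m ∈ t, w m i * (starRingEnd ℂ) (w m j) := by
    have h2 : ((∑ m ∈ t, ‖∑ l ∈ s, (β l : ℂ) * w m l‖ ^ 2 : ℝ) : ℂ) =
        ∑ m ∈ t, ∑ i ∈ s, ∑ j ∈ s, (β i : ℂ) * (β j : ℂ) * (w m i * (starRingEnd ℂ) (w m j)) := by
      push_cast
      refine Finset.sum_congr rfl fun m _ => ?_
      rw [← Complex.mul_conj', map_sum, Finset.sum_mul_sum]
      refine Finset.sum_congr rfl fun i _ => Finset.sum_congr rfl fun j _ => ?_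
      rw [map_mul, Complex.conj_ofReal]
      ring
    rw [h2, Finset.sum_comm]
    refine Finset.sum_congr rfl fun i _ => ?_
    rw [Finset.sum_comm]
    refine Finset.sum_congr rfl fun j _ => ?_
    rw [Finset.mul_sum]
  have h0 : 0 ≤ ∑ m ∈ t, ‖∑ l ∈ s, (β l : ℂ) * w m l‖ ^ 2 := Finset.sum_nonneg fun m _ => by positivity
  have h3 : ∑ m ∈ t, ‖∑ l ∈ s, (β l : ℂ) * w m l‖ ^ 2 =
      ‖((∑ m ∈ t, ‖∑ l ∈ s, (β l : ℂ) * w m l‖ ^ 2 : ℝ) : ℂ)‖ := by
    rw [Complex.norm_real, Real.norm_of_nonneg h0]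
  rw [h3, h1]
  refine (norm_sum_le _ _).trans (Finset.sum_le_sum fun i _ => (norm_sum_le _ _).trans (Finset.sum_le_sum fun j _ => ?_))
  rw [norm_mul, norm_mul, Complex.norm_real, Complex.norm_real, Real.norm_eq_abs, Real.norm_eq_abs]

private lemma TII_harm1 (L i : ℕ) (hi : i ≤ L) : ∑ j ∈ Ioc 0 L, 1 / (((i - j : ℕ) : ℝ)) ≤ ∑ d ∈ Ioc 0 L, 1 / (d : ℝ) := by
  have h1 : ∑ j ∈ Ioc 0 L, 1 / (((i - j : ℕ) : ℝ)) = ∑ j ∈ (Ioc 0 L).filter (fun j => j < i), 1 / (((i - j : ℕ) : ℝ)) := by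
    rw [Finset.sum_filter]
    refine Finset.sum_congr rfl fun j _ => ?_
    by_cases h : j < i
    · rw [if_pos h]
    · rw [if_neg h, Nat.sub_eq_zero_of_le (not_lt.1 h)]
      simp
  have h2 : ∑ j ∈ (Ioc 0 L).filter (fun j => j < i), 1 / (((i - j : ℕ) : ℝ)) =
      ∑ d ∈ ((Ioc 0 L).filter (fun j => j < i)).image (fun j => i - j), 1 / (d : ℝ) := by
    rw [Finset.sum_image]
    intro x hx y hy hxy
    have hx' := (Finset.mem_filter.1 hx).2
    have hy' := (Finset.mem_filter.1 hy).2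
    simp only at hxy
    omega
  rw [h1, h2]
  refine Finset.sum_le_sum_of_subset_of_nonneg ?_ fun d _ _ => by positivity
  intro d hd
  obtain ⟨j, hj, rfl⟩ := Finset.mem_image.1 hd
  have hj' := (Finset.mem_filter.1 hj).2
  simp only [Finset.mem_Ioc]
  omega

private lemma TII_harm2 (L i : ℕ) : ∑ j ∈ Ioc 0 L, 1 / (((j - i : ℕ) : ℝ)) ≤ ∑ d ∈ Ioc 0 L, 1 / (d : ℝ) := by
  have h1 : ∑ j ∈ Ioc 0 L, 1 / (((j - i : ℕ) : ℝ)) = ∑ j ∈ (Ioc 0 L).filter (fun j => i < j), 1 / (((j - i : ℕ) : ℝ)) := by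
    rw [Finset.sum_filter]
    refine Finset.sum_congr rfl fun j _ => ?_
    by_cases h : i < j
    · rw [if_pos h]
    · rw [if_neg h, Nat.sub_eq_zero_of_le (not_lt.1 h)]
      simp
  have h2 : ∑ j ∈ (Ioc 0 L).filter (fun j => i < j), 1 / (((j - i : ℕ) : ℝ)) =
      ∑ d ∈ ((Ioc 0 L).filter (fun j => i < j)).image (fun j => j - i), 1 / (d : ℝ) := by
    rw [Finset.sum_image]
    intro x hx y hy hxy
    have hx' := (Finset.mem_filter.1 hx).2
    have hy' := (Finset.mem_filter.1 hy).2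
    simp only at hxy
    omega
  rw [h1, h2]
  refine Finset.sum_le_sum_of_subset_of_nonneg ?_ fun d _ _ => by positivity
  intro d hd
  obtain ⟨j, hj, rfl⟩ := Finset.mem_image.1 hd
  have hj' := (Finset.mem_filter.1 hj)
  have hj1 := Finset.mem_Ioc.1 hj'.1
  simp only [Finset.mem_Ioc]
  omega

private lemma TII_norm (x : ℝ) : ‖ee x‖ = 1 := by
  unfold Pool.Agent.LDH.ee
  rw [Complex.norm_exp]
  simp

private lemma TII_sub (x y : ℝ) : ee x * (starRingEnd ℂ) (ee y) = ee (x - y) := by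
  unfold Pool.Agent.LDH.ee
  rw [← Complex.exp_conj, ← Complex.exp_add]
  congr 1
  simp only [map_mul, Complex.conj_ofReal, Complex.conj_I]
  push_cast
  ring

/-- the weight -/
private noncomputable def TII_w (a b : ℕ) (x : ℝ) (m l : ℕ) : ℂ :=
  if a < m * l ∧ m * l ≤ b then ee (x / (m * l)) else 0

private lemma TII_w_norm (a b : ℕ) (x : ℝ) (m l : ℕ) : ‖TII_w a b x m l‖ ≤ 1 := by
  unfold TII_w
  split_ifs
  · rw [TII_norm]
  · simp

private lemma TII_inner (a b k M m : ℕ) (x : ℝ) (β : ℕ → ℝ) (hbk : b ≤ k) (hm : M < m) (hM : 0 < M) :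
    ∑ l ∈ Ioc (a / m) (b / m), (β l : ℂ) * ee (x / (m * l)) = ∑ l ∈ Ioc 0 (k / M), (β l : ℂ) * TII_w a b x m l := by
  have hm0 : 0 < m := by omega
  have h1 : Ioc (a / m) (b / m) = (Ioc 0 (k / M)).filter (fun l => a < m * l ∧ m * l ≤ b) := by
    ext l
    simp only [Finset.mem_Ioc, Finset.mem_filter]
    rw [Nat.div_lt_iff_lt_mul hm0, Nat.le_div_iff_mul_le hm0, mul_comm l m]
    constructor
    · rintro ⟨h1, h2⟩
      refine ⟨⟨?_, ?_⟩, h1, h2⟩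
      · rcases Nat.eq_zero_or_pos l with h | h
        · subst h
          simp at h1
        · exact h
      · rw [Nat.le_div_iff_mul_le hM]
        calc l * M ≤ l * m := Nat.mul_le_mul_left _ hm.le
          _ = m * l := mul_comm _ _
          _ ≤ b := h2
          _ ≤ k := hbk
    · rintro ⟨_, h1, h2⟩
      exact ⟨h1, h2⟩
  rw [h1, Finset.sum_filter]
  refine Finset.sum_congr rfl fun l _ => ?_
  unfold TII_w
  split_ifs
  · rfl
  · rw [mul_zero]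

private lemma TII_cross (a b M l₁ l₂ : ℕ) (x : ℝ) (h₁ : 0 < l₁) (h₂ : 0 < l₂) :
    ∑ m ∈ Ioc M (2 * M), TII_w a b x m l₁ * (starRingEnd ℂ) (TII_w a b x m l₂) =
      ∑ m ∈ Ioc (max M (max (a / l₁) (a / l₂))) (min (2 * M) (min (b / l₁) (b / l₂))),
        ee (x / (m * l₁) - x / (m * l₂)) := by
  have h3 : Ioc (max M (max (a / l₁) (a / l₂))) (min (2 * M) (min (b / l₁) (b / l₂))) =
      (Ioc M (2 * M)).filter (fun m => (a < m * l₁ ∧ m * l₁ ≤ b) ∧ (a < m * l₂ ∧ m * l₂ ≤ b)) := by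
    ext m
    simp only [Finset.mem_Ioc, Finset.mem_filter, max_lt_iff, le_min_iff]
    rw [Nat.div_lt_iff_lt_mul h₁, Nat.le_div_iff_mul_le h₁, Nat.div_lt_iff_lt_mul h₂, Nat.le_div_iff_mul_le h₂]
    tauto
  rw [h3, Finset.sum_filter]
  refine Finset.sum_congr rfl fun m _ => ?_
  unfold TII_w
  by_cases h4 : a < m * l₁ ∧ m * l₁ ≤ b
  · by_cases h5 : a < m * l₂ ∧ m * l₂ ≤ b
    · rw [if_pos h4, if_pos h5, if_pos ⟨h4, h5⟩, TII_sub]
    · have h6 : ¬((a < m * l₁ ∧ m * l₁ ≤ b) ∧ (a < m * l₂ ∧ m * l₂ ≤ b)) := fun h => h5 h.2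
      rw [if_neg h5, if_neg h6, map_zero, mul_zero]
  · have h6 : ¬((a < m * l₁ ∧ m * l₁ ≤ b) ∧ (a < m * l₂ ∧ m * l₂ ≤ b)) := fun h => h4 h.1
    rw [if_neg h4, if_neg h6, zero_mul]

theorem TII (hPRS : PRS_stmt) : TII_stmt := by
  intro A
  obtain ⟨δ, C, hδ0, hδ4, hC, hP⟩ := hPRS A
  refine ⟨δ / 2, 8 * C, 3, by positivity, by linarith, by linarith, ?_⟩
  intro k M a b x α β hk hM1 hM2 hab hbk hkx hxA hα hβ
  -- basic facts
  have hk1 : (1 : ℝ) ≤ k := by exact_mod_cast (show 1 ≤ k by omega)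
  have hk0 : (0 : ℝ) < k := by linarith
  have hx0 : 0 < x := by linarith
  have hM0 : 0 < M := by
    rcases Nat.eq_zero_or_pos M with h | h
    · subst h
      have : (0 : ℝ) < (k : ℝ) ^ (1 / 4 : ℝ) := Real.rpow_pos_of_pos hk0 _
      simp only [Nat.cast_zero] at hM1
      linarith
    · exact h
  have hMR : (0 : ℝ) < M := by exact_mod_cast hM0
  have hlog0 : 0 ≤ Real.log k := Real.log_nonneg hk1
  set L : ℕ := k / M with hL
  have hLk : L ≤ k := Nat.div_le_self _ _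
  have hLM : (L : ℝ) * M ≤ k := by exact_mod_cast Nat.div_mul_le_self k M
  have hkd0 : 0 < (k : ℝ) ^ (-δ) := Real.rpow_pos_of_pos hk0 _
  -- the kernel
  set K : ℕ → ℕ → ℝ := fun i j => C * ((k : ℝ) ^ 2 / x * (1 / (((i - j : ℕ) : ℝ)) + 1 / (((j - i : ℕ) : ℝ))) + M * (k : ℝ) ^ (-δ)) +
    (if i = j then (M : ℝ) else 0) with hK
  have hK0 : ∀ i j, 0 ≤ K i j := by
    intro i j
    simp only [hK]
    have h1 : (0 : ℝ) ≤ if i = j then (M : ℝ) else 0 := by split_ifs <;> positivity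
    have h2 : 0 ≤ C * ((k : ℝ) ^ 2 / x * (1 / (((i - j : ℕ) : ℝ)) + 1 / (((j - i : ℕ) : ℝ))) + M * (k : ℝ) ^ (-δ)) := by
      have : 0 ≤ C := by linarith
      positivity
    linarith
  have hKs : ∀ i j, K i j = K j i := by
    intro i j
    simp only [hK]
    rw [add_comm (1 / (((i - j : ℕ) : ℝ))) _]
    by_cases h : i = j
    · subst h
      rfl
    · rw [if_neg h, if_neg (Ne.symm h)]
  have hW : ∀ i ∈ Ioc 0 L, ∀ j ∈ Ioc 0 L,
      ‖∑ m ∈ Ioc M (2 * M), TII_w a b x m i * (starRingEnd ℂ) (TII_w a b x m j)‖ ≤ K i j := by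
    intro i hi j hj
    have hi' := Finset.mem_Ioc.1 hi
    have hj' := Finset.mem_Ioc.1 hj
    by_cases hij : i = j
    · have h1 : ‖∑ m ∈ Ioc M (2 * M), TII_w a b x m i * (starRingEnd ℂ) (TII_w a b x m j)‖ ≤ M := by
        refine (norm_sum_le _ _).trans ?_
        have h2 : ∑ m ∈ Ioc M (2 * M), ‖TII_w a b x m i * (starRingEnd ℂ) (TII_w a b x m j)‖ ≤
            ∑ m ∈ Ioc M (2 * M), (1 : ℝ) := by
          refine Finset.sum_le_sum fun m _ => ?_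
          rw [norm_mul, RCLike.norm_conj]
          have h3 := TII_w_norm a b x m i
          have h4 := TII_w_norm a b x m j
          have h5 := norm_nonneg (TII_w a b x m i)
          have h6 := norm_nonneg (TII_w a b x m j)
          nlinarith
        refine h2.trans ?_
        rw [Finset.sum_const, Nat.card_Ioc, nsmul_eq_mul, mul_one]
        have h7 : 2 * M - M = M := by omega
        rw [h7]
      have h2 : (M : ℝ) ≤ K i j := by
        simp only [hK]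
        rw [if_pos hij]
        have h2 : 0 ≤ C * ((k : ℝ) ^ 2 / x * (1 / (((i - j : ℕ) : ℝ)) + 1 / (((j - i : ℕ) : ℝ))) + M * (k : ℝ) ^ (-δ)) := by
          have : 0 ≤ C := by linarith
          positivity
        linarith
      exact h1.trans h2
    · rw [TII_cross a b M i j x hi'.1 hj'.1]
      by_cases hle : max M (max (a / i) (a / j)) ≤ min (2 * M) (min (b / i) (b / j))
      · have h1 := hP k M i j (max M (max (a / i) (a / j))) (min (2 * M) (min (b / i) (b / j))) x (by omega) hM1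
          (le_max_left _ _) hle (min_le_left _ _) hi'.1 hj'.1 hij ?_ ?_ hkx hxA
        · refine h1.trans ?_
          simp only [hK]
          rw [if_neg hij, add_zero]
          refine mul_le_mul_of_nonneg_left ?_ (by linarith)
          have h2 : (k : ℝ) ^ 2 / (x * |(i : ℝ) - j|) ≤ (k : ℝ) ^ 2 / x * (1 / (((i - j : ℕ) : ℝ)) + 1 / (((j - i : ℕ) : ℝ))) := by
            rcases lt_or_gt_of_ne hij with h | h
            · have h3 : |(i : ℝ) - j| = ((j - i : ℕ) : ℝ) := by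
                rw [Nat.cast_sub h.le, abs_sub_comm, abs_of_nonneg]
                have : (i : ℝ) ≤ j := by exact_mod_cast h.le
                linarith
              rw [h3, Nat.sub_eq_zero_of_le h.le]
              simp only [Nat.cast_zero, div_zero, zero_add]
              rw [div_mul_div_comm, mul_one]
            · have h3 : |(i : ℝ) - j| = ((i - j : ℕ) : ℝ) := by
                rw [Nat.cast_sub h.le, abs_of_nonneg]
                have : (j : ℝ) ≤ i := by exact_mod_cast h.le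
                linarith
              rw [h3, Nat.sub_eq_zero_of_le h.le]
              simp only [Nat.cast_zero, div_zero, add_zero]
              rw [div_mul_div_comm, mul_one]
          linarith
        · rw [mul_comm]
          exact (Nat.le_div_iff_mul_le hM0).1 hi'.2
        · rw [mul_comm]
          exact (Nat.le_div_iff_mul_le hM0).1 hj'.2
      · rw [Finset.Ioc_eq_empty_of_le (not_le.1 hle).le, Finset.sum_empty, norm_zero]
        exact hK0 i j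
  -- row sums
  set R : ℝ := C * ((k : ℝ) ^ 2 / x * (2 * (1 + Real.log k)) + k * (k : ℝ) ^ (-δ)) + M with hR
  have hrow : ∀ i ∈ Ioc 0 L, ∑ j ∈ Ioc 0 L, K i j ≤ R := by
    intro i hi
    have hi' := Finset.mem_Ioc.1 hi
    have hharm : ∑ d ∈ Ioc 0 L, 1 / (d : ℝ) ≤ 1 + Real.log k := by
      refine (Pool.Agent.helper85.BVP.harm_le L).trans ?_
      have := Pool.Agent.helper85.BVP.log_nat_le hLk
      linarith
    have h1 := TII_harm1 L i hi'.2
    have h2 := TII_harm2 L i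
    have h3 : ∑ j ∈ Ioc 0 L, K i j = C * ((k : ℝ) ^ 2 / x * (∑ j ∈ Ioc 0 L, 1 / (((i - j : ℕ) : ℝ)) +
        ∑ j ∈ Ioc 0 L, 1 / (((j - i : ℕ) : ℝ))) + L * (M * (k : ℝ) ^ (-δ))) + M := by
      simp only [hK]
      rw [Finset.sum_add_distrib, Finset.sum_ite_eq, if_pos hi, ← Finset.mul_sum, Finset.sum_add_distrib,
        ← Finset.mul_sum, Finset.sum_add_distrib, Finset.sum_const, Nat.card_Ioc, nsmul_eq_mul, Nat.sub_zero]
    rw [h3, hR]
    have h4 : (k : ℝ) ^ 2 / x * (∑ j ∈ Ioc 0 L, 1 / (((i - j : ℕ) : ℝ)) +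
        ∑ j ∈ Ioc 0 L, 1 / (((j - i : ℕ) : ℝ))) ≤ (k : ℝ) ^ 2 / x * (2 * (1 + Real.log k)) :=
      mul_le_mul_of_nonneg_left (by linarith) (by positivity)
    have h5 : (L : ℝ) * (M * (k : ℝ) ^ (-δ)) ≤ k * (k : ℝ) ^ (-δ) := by
      rw [← mul_assoc]
      exact mul_le_mul_of_nonneg_right hLM hkd0.le
    have h6 := mul_le_mul_of_nonneg_left (add_le_add h4 h5) (show 0 ≤ C by linarith)
    linarith
  -- the sum of the squares of the inner sums
  have hT : ∑ m ∈ Ioc M (2 * M), ‖∑ l ∈ Ioc 0 L, (β l : ℂ) * TII_w a b x m l‖ ^ 2 ≤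
      R * ∑ l ∈ Ioc 0 L, β l ^ 2 := by
    refine (TII_open (Ioc 0 L) (Ioc M (2 * M)) β (TII_w a b x)).trans ?_
    refine le_trans ?_ (TII_schur (Ioc 0 L) β K R hK0 hKs hrow)
    refine Finset.sum_le_sum fun i hi => Finset.sum_le_sum fun j hj => ?_
    exact mul_le_mul_of_nonneg_left (hW i hi j hj) (by positivity)
  have hβ2 : ∑ l ∈ Ioc 0 L, β l ^ 2 ≤ (k / M) * (1 + Real.log k) ^ 3 := by
    have h1 : ∑ l ∈ Ioc 0 L, β l ^ 2 ≤ ∑ l ∈ Ioc 0 L, tau l ^ 2 := by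
      refine Finset.sum_le_sum fun l _ => ?_
      rw [← sq_abs]
      exact pow_le_pow_left₀ (abs_nonneg _) (hβ l) 2
    refine h1.trans ((Pool.Agent.helper85.BVP.sum_tau_sq_le L).trans ?_)
    have h2 : (L : ℝ) ≤ k / M := by rw [le_div_iff₀ hMR]; exact hLM
    have h3 : Real.log L ≤ Real.log k := Pool.Agent.helper85.BVP.log_nat_le hLk
    have h4 : 0 ≤ Real.log (L : ℝ) := Real.log_natCast_nonneg L
    exact mul_le_mul h2 (pow_le_pow_left₀ (by linarith) (by linarith) 3) (by positivity) (by positivity)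
  have hMk : (M : ℝ) ≤ k * (k : ℝ) ^ (-δ) := by
    refine hM2.trans ?_
    have h1 : (k : ℝ) * (k : ℝ) ^ (-δ) = (k : ℝ) ^ (1 + -δ) := by
      rw [Real.rpow_add hk0, Real.rpow_one]
    rw [h1]
    exact Real.rpow_le_rpow_of_exponent_le hk1 (by linarith)
  have hRle : R ≤ (1 + Real.log k) * (2 * C * k * (k / x + (k : ℝ) ^ (-δ))) := by
    rw [hR]
    have h1 : (k : ℝ) ^ 2 / x = k * (k / x) := by ring
    rw [h1]
    have h2 : 0 ≤ (k : ℝ) * (k / x) := by positivity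
    have h3 : 0 ≤ (k : ℝ) * (k : ℝ) ^ (-δ) := by positivity
    have h4 : 0 ≤ Real.log k * (C * (k * (k : ℝ) ^ (-δ))) := by positivity
    nlinarith
  -- Cauchy-Schwarz
  set S : ℂ := ∑ m ∈ Ioc M (2 * M), (α m : ℂ) * ∑ l ∈ Ioc (a / m) (b / m), (β l : ℂ) * ee (x / (m * l)) with hS
  have hS1 : ‖S‖ ≤ ∑ m ∈ Ioc M (2 * M), |α m| * ‖∑ l ∈ Ioc 0 L, (β l : ℂ) * TII_w a b x m l‖ := by
    rw [hS]
    refine (norm_sum_le _ _).trans (Finset.sum_le_sum fun m hm => ?_)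
    rw [norm_mul, Complex.norm_real, Real.norm_eq_abs, TII_inner a b k M m x β hbk (Finset.mem_Ioc.1 hm).1 hM0]
  have hS2 : ‖S‖ ^ 2 ≤ (∑ m ∈ Ioc M (2 * M), |α m| ^ 2) *
      ∑ m ∈ Ioc M (2 * M), ‖∑ l ∈ Ioc 0 L, (β l : ℂ) * TII_w a b x m l‖ ^ 2 :=
    (pow_le_pow_left₀ (norm_nonneg _) hS1 2).trans (Finset.sum_mul_sq_le_sq_mul_sq _ _ _)
  have hα2 : ∑ m ∈ Ioc M (2 * M), |α m| ^ 2 ≤ M * (4 * Real.log k ^ 2) := by
    have h1 : ∑ m ∈ Ioc M (2 * M), |α m| ^ 2 ≤ ∑ m ∈ Ioc M (2 * M), (4 * Real.log k ^ 2) := by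
      refine Finset.sum_le_sum fun m hm => ?_
      calc |α m| ^ 2 ≤ (2 * Real.log k) ^ 2 := pow_le_pow_left₀ (abs_nonneg _) (hα m hm) 2
        _ = 4 * Real.log k ^ 2 := by ring
    refine h1.trans ?_
    rw [Finset.sum_const, Nat.card_Ioc, nsmul_eq_mul]
    have h7 : 2 * M - M = M := by omega
    rw [h7]
  have hTT : ∑ m ∈ Ioc M (2 * M), ‖∑ l ∈ Ioc 0 L, (β l : ℂ) * TII_w a b x m l‖ ^ 2 ≤
      ((1 + Real.log k) * (2 * C * k * (k / x + (k : ℝ) ^ (-δ)))) * ((k / M) * (1 + Real.log k) ^ 3) := by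
    refine hT.trans (mul_le_mul hRle hβ2 (Finset.sum_nonneg fun l _ => by positivity) ?_)
    have : 0 ≤ C := by linarith
    positivity
  have hS3 : ‖S‖ ^ 2 ≤ (M * (4 * Real.log k ^ 2)) *
      (((1 + Real.log k) * (2 * C * k * (k / x + (k : ℝ) ^ (-δ)))) * ((k / M) * (1 + Real.log k) ^ 3)) := by
    refine hS2.trans (mul_le_mul hα2 hTT (Finset.sum_nonneg fun l _ => by positivity) (by positivity))
  have hS4 : (M * (4 * Real.log k ^ 2)) *
      (((1 + Real.log k) * (2 * C * k * (k / x + (k : ℝ) ^ (-δ)))) * ((k / M) * (1 + Real.log k) ^ 3)) =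
      8 * C * k ^ 2 * (Real.log k ^ 2 * (1 + Real.log k) ^ 4) * (k / x + (k : ℝ) ^ (-δ)) := by
    field_simp
    ring
  have hC0 : 0 ≤ C := by linarith
  have hlog2 : Real.log k ^ 2 * (1 + Real.log k) ^ 4 ≤ (1 + Real.log k) ^ 6 := by
    calc Real.log k ^ 2 * (1 + Real.log k) ^ 4 ≤ (1 + Real.log k) ^ 2 * (1 + Real.log k) ^ 4 :=
          mul_le_mul_of_nonneg_right (pow_le_pow_left₀ hlog0 (by linarith) 2) (by positivity)
      _ = (1 + Real.log k) ^ 6 := by ring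
  have hS5 : ‖S‖ ^ 2 ≤ 8 * C * k ^ 2 * (1 + Real.log k) ^ 6 * (k / x + (k : ℝ) ^ (-δ)) := by
    rw [hS4] at hS3
    refine hS3.trans ?_
    refine mul_le_mul_of_nonneg_right ?_ (by positivity)
    exact mul_le_mul_of_nonneg_left hlog2 (by positivity)
  -- square root
  have hu : ((k / x : ℝ) ^ (1 / 2 : ℝ)) ^ 2 = k / x := by
    rw [← Real.rpow_natCast, ← Real.rpow_mul (by positivity)]
    norm_num
  have hv : ((k : ℝ) ^ (-(δ / 2))) ^ 2 = (k : ℝ) ^ (-δ) := by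
    rw [← Real.rpow_natCast, ← Real.rpow_mul hk0.le]
    congr 1
    push_cast
    ring
  have hu0 : 0 ≤ (k / x : ℝ) ^ (1 / 2 : ℝ) := by positivity
  have hv0 : 0 ≤ (k : ℝ) ^ (-(δ / 2)) := by positivity
  refine (sq_le_sq₀ (norm_nonneg _) (by positivity)).1 ?_
  refine hS5.trans ?_
  have h1 : k / x + (k : ℝ) ^ (-δ) ≤ ((k / x : ℝ) ^ (1 / 2 : ℝ) + (k : ℝ) ^ (-(δ / 2))) ^ 2 := by
    have h2 := mul_nonneg hu0 hv0
    calc k / x + (k : ℝ) ^ (-δ) = ((k / x : ℝ) ^ (1 / 2 : ℝ)) ^ 2 + ((k : ℝ) ^ (-(δ / 2))) ^ 2 := by rw [hu, hv]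
      _ ≤ ((k / x : ℝ) ^ (1 / 2 : ℝ) + (k : ℝ) ^ (-(δ / 2))) ^ 2 := by nlinarith
  calc 8 * C * k ^ 2 * (1 + Real.log k) ^ 6 * (k / x + (k : ℝ) ^ (-δ))
      ≤ (8 * C) ^ 2 * k ^ 2 * (1 + Real.log k) ^ 6 * ((k / x : ℝ) ^ (1 / 2 : ℝ) + (k : ℝ) ^ (-(δ / 2))) ^ 2 := by
        refine mul_le_mul ?_ h1 (by positivity) (by positivity)
        refine mul_le_mul_of_nonneg_right (mul_le_mul_of_nonneg_right ?_ (by positivity)) (by positivity)
        nlinarith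
    _ = (8 * C * k * (1 + Real.log k) ^ 3 * ((k / x : ℝ) ^ (1 / 2 : ℝ) + (k : ℝ) ^ (-(δ / 2)))) ^ 2 := by ring

end Pool.Agent.DFO
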